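import Pool.Agent.N754.GF.Stm

/-!
Project GF, part LOGD: the dual derivations are logarithmic at toric places.
-/

set_option autoImplicit false

open MvPolynomial FF Pool.Agent.W603.LV

namespace Pool.Agent.N263.GF

open Pool.Agent.W602.GT (Divisorial DerReg DerLog logder_eq ge_div)
open Pool.Agent.N754.LG (Dual)
open Pool.Agent.N754.GF

variable {k K : Type} [Field k] [Field K] [Algebra k K]

theorem prod_zpow_sum {ι : Type} {x : K} (hx : x ≠ 0) (s : Finset ι) (f : ι → ℤ) :
    ∏ i ∈ s, x ^ f i = x ^ ∑ i ∈ s, f i := by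
  classical
  induction s using Finset.induction_on with
  | empty => simp
  | insert a s ha ih => rw [Finset.prod_insert ha, Finset.sum_insert ha, zpow_add₀ hx, ih]

theorem aeval_monomial' {w : ℕ} (b : Fin w → K) (m : Fin w →₀ ℕ) (c : k) :
    aeval b (monomial m c) = algebraMap k K c * ∏ j, b j ^ m j := by
  rw [aeval_monomial, Finsupp.prod_fintype _ _ fun i => pow_zero _]

/-- toric places are divisorial -/
theorem div_of_toric {w : ℕ} (b : Fin w → K) (hb : AlgebraicIndependent k b) (P : Place k K)
    (hP : Toric b P) : Divisorial w P := by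
  classical
  obtain ⟨⟨i0, h0⟩, hT⟩ := hP
  obtain ⟨n, rfl⟩ : ∃ n, w = n + 1 := ⟨w - 1, by have := i0.2; omega⟩
  change ∃ u : Fin n → K, ∀ F : MvPolynomial (Fin n) k, F ≠ 0 →
    aeval u F ≠ 0 ∧ P.ord (aeval u F) = 0
  set a0 := P.ord (b i0) with ha0
  set N : ℕ := a0.natAbs with hN
  set s : ℤ := a0.sign with hs
  have hsN : s * a0 = N := Int.sign_mul_self _
  have hN1 : 1 ≤ N := Int.natAbs_pos.mpr h0
  have hb0 : ∀ j, b j ≠ 0 := fun j => hb.ne_zero j
  let a : Fin n → ℤ := fun i => P.ord (b (i0.succAbove i))
  let e : Fin n → ℤ := fun i => -(s * a i)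
  refine ⟨fun i => b (i0.succAbove i) ^ N * b i0 ^ e i, ?_⟩
  intro F hF
  let E : (Fin n →₀ ℕ) → ℤ := fun c => ∑ i, e i * c i
  let L : ℕ := ∑ c ∈ F.support, (E c).natAbs
  have hL : ∀ c ∈ F.support, 0 ≤ (L : ℤ) + E c := by
    intro c hc
    have h1 : (E c).natAbs ≤ L := Finset.single_le_sum (f := fun c => (E c).natAbs)
      (fun _ _ => Nat.zero_le _) hc
    omega
  let M : (Fin n →₀ ℕ) → (Fin (n + 1) →₀ ℕ) := fun c =>
    Finsupp.equivFunOnFinite.symm (i0.insertNth (α := fun _ => ℕ) ((L : ℤ) + E c).toNat
      (fun i => N * c i))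
  have hM0 : ∀ c, M c i0 = ((L : ℤ) + E c).toNat := by
    intro c
    simp [M]
  have hM1 : ∀ c i, M c (i0.succAbove i) = N * c i := by
    intro c i
    simp [M]
  have hMinj : Function.Injective M := by
    intro c c' h
    ext i
    have h1 := DFunLike.congr_fun h (i0.succAbove i)
    rw [hM1, hM1] at h1
    exact Nat.eq_of_mul_eq_mul_left hN1 h1
  let q : MvPolynomial (Fin (n + 1)) k := ∑ c ∈ F.support, monomial (M c) (coeff c F)
  have hqc : ∀ c, coeff (M c) q = coeff c F := by
    intro c
    simp only [q, coeff_sum, coeff_monomial]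
    have : ∀ c' ∈ F.support, (if M c' = M c then coeff c' F else 0) =
        if c' = c then coeff c' F else 0 := by
      intro c' _
      by_cases h : c' = c
      · subst h; simp
      · rw [if_neg h, if_neg fun h' => h (hMinj h')]
    rw [Finset.sum_congr rfl this, Finset.sum_ite_eq']
    split
    · rfl
    · rename_i hc
      exact (notMem_support_iff.mp hc).symm
  have hq0 : q ≠ 0 := by
    intro h
    apply hF
    ext c
    rw [← hqc, h, coeff_zero, coeff_zero]
  have hqs : ∀ m ∈ q.support, ∃ c ∈ F.support, m = M c := by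
    intro m hm
    by_contra hcon
    push Not at hcon
    rw [mem_support_iff] at hm
    apply hm
    simp only [q, coeff_sum, coeff_monomial]
    exact Finset.sum_eq_zero fun c hc => if_neg fun h => hcon c hc h.symm
  have hwt : ∀ m ∈ q.support, ∑ i, (m i : ℤ) * P.ord (b i) = L * a0 := by
    intro m hm
    obtain ⟨c, hc, rfl⟩ := hqs m hm
    rw [Fin.sum_univ_succAbove _ i0, hM0, Int.toNat_of_nonneg (hL c hc)]
    simp only [hM1]
    have h2 : ∑ i, ((N * c i : ℕ) : ℤ) * P.ord (b (i0.succAbove i)) = -(E c * a0) := by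
      simp only [E]
      rw [Finset.sum_mul, ← Finset.sum_neg_distrib]
      refine Finset.sum_congr rfl fun i _ => ?_
      push_cast
      rw [← hsN]
      simp only [e, a]
      ring
    rw [h2]
    ring
  have hqe : aeval b q = b i0 ^ L * aeval (fun i => b (i0.succAbove i) ^ N * b i0 ^ e i) F := by
    rw [aeval_def (fun i => b (i0.succAbove i) ^ N * b i0 ^ e i), eval₂_eq', Finset.mul_sum]
    simp only [q, map_sum]
    refine Finset.sum_congr rfl fun c hc => ?_
    rw [aeval_monomial', Fin.prod_univ_succAbove _ i0, hM0]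
    simp only [hM1]
    have h2 : ∏ i, (b (i0.succAbove i) ^ N * b i0 ^ e i) ^ c i =
        (∏ i, b (i0.succAbove i) ^ (N * c i)) * b i0 ^ E c := by
      simp only [E]
      rw [← prod_zpow_sum (hb0 i0), ← Finset.prod_mul_distrib]
      refine Finset.prod_congr rfl fun i _ => ?_
      rw [mul_pow, ← pow_mul, ← zpow_natCast (b i0 ^ e i), ← zpow_mul]
    rw [h2]
    have h3 : b i0 ^ ((L : ℤ) + E c).toNat = b i0 ^ L * b i0 ^ E c := by
      rw [← zpow_natCast, Int.toNat_of_nonneg (hL c hc), zpow_add₀ (hb0 i0), zpow_natCast]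
    rw [h3]
    ring
  have hq1 : aeval b q ≠ 0 := fun h => hq0 ((injective_iff_map_eq_zero _).mp hb q h)
  have hu0 : aeval (fun i => b (i0.succAbove i) ^ N * b i0 ^ e i) F ≠ 0 := by
    intro h
    rw [h, mul_zero] at hqe
    exact hq1 hqe
  refine ⟨hu0, ?_⟩
  obtain ⟨m, hm, hm1, _⟩ := hT q hq0
  rw [hwt m hm, hqe, P.ord_mul (pow_ne_zero _ (hb0 i0)) hu0, P.ord_pow] at hm1
  linarith

/-- the derivations act diagonally on monomials -/
theorem dual_aeval {w : ℕ} (b : Fin w → K) (D : Fin w → Derivation k K K) (hD : Dual b D)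
    (j : Fin w) (q : MvPolynomial (Fin w) k) :
    D j (aeval b q) = aeval b (X j * pderiv j q) := by
  classical
  induction q using MvPolynomial.induction_on with
  | C a => simp
  | add p q hp hq => rw [map_add, map_add, map_add, mul_add, map_add, hp, hq]
  | mul_X p i hp =>
    rw [map_mul, aeval_X, (D j).leibniz, hp, hD.1 j i]
    simp only [Derivation.leibniz, pderiv_X, smul_eq_mul, map_mul, map_add, aeval_X]
    by_cases h : j = i
    · subst h
      simp
      ring
    · rw [if_neg h, Pi.single_eq_of_ne (Ne.symm h)]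
      simp
      ring

theorem log_aeval {w : ℕ} (b : Fin w → K) (hb : AlgebraicIndependent k b)
    (D : Fin w → Derivation k K K) (hD : Dual b D) (P : Place k K) (hP : Toric b P) (j : Fin w)
    (q : MvPolynomial (Fin w) k) (hq : q ≠ 0) :
    Ge P 0 (D j (aeval b q) / aeval b q) := by
  classical
  have hinj : ∀ p : MvPolynomial (Fin w) k, p ≠ 0 → aeval b p ≠ 0 :=
    fun p hp h => hp ((injective_iff_map_eq_zero _).mp hb p h)
  rw [dual_aeval b D hD]
  by_cases h0 : X j * pderiv j q = 0
  · rw [h0, map_zero, zero_div]; exact Ge.zero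
  · obtain ⟨m, hm, hm1, _⟩ := hP.2 _ h0
    obtain ⟨m', hm', hm1', hm2'⟩ := hP.2 q hq
    have hsup : m ∈ q.support := by
      rw [mem_support_iff] at hm ⊢
      intro hc
      apply hm
      rw [coeff_X_mul']
      split
      · rename_i hj
        rw [coeff_pderiv]
        have : m - Finsupp.single j 1 + Finsupp.single j 1 = m := by
          ext i
          simp only [Finsupp.coe_add, Finsupp.coe_tsub, Pi.add_apply, Pi.sub_apply]
          by_cases hij : j = i
          · subst hij
            simp only [Finsupp.single_eq_same]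
            rw [Finsupp.mem_support_iff] at hj
            omega
          · rw [Finsupp.single_apply, if_neg hij]
            omega
        rw [this, hc, zero_mul]
      · rfl
    right
    rw [P.ord_div (hinj _ h0) (hinj _ hq), hm1, hm1']
    have := hm2' m hsup
    linarith

theorem logder_div (D : Derivation k K K) {x y : K} (hx : x ≠ 0) (hy : y ≠ 0) :
    D (x / y) / (x / y) = D x / x - D y / y := by
  rw [D.leibniz_div]
  simp only [smul_eq_mul]
  field_simp

theorem logder_mul (D : Derivation k K K) {x y : K} (hx : x ≠ 0) (hy : y ≠ 0) :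
    D (x * y) / (x * y) = D x / x + D y / y := by
  rw [D.leibniz]
  simp only [smul_eq_mul]
  field_simp
  ring

theorem log_adjoin {w : ℕ} (b : Fin w → K) (hb : AlgebraicIndependent k b)
    (D : Fin w → Derivation k K K) (hD : Dual b D) (P : Place k K) (hP : Toric b P) (j : Fin w)
    (x : K) (hx : x ∈ IntermediateField.adjoin k (Set.range b)) :
    Ge P 0 (D j x / x) := by
  obtain ⟨r, s, rfl⟩ := (IntermediateField.mem_adjoin_range_iff k b x).mp hx
  by_cases hr : aeval b r = 0
  · rw [hr, zero_div, map_zero, zero_div]; exact Ge.zero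
  by_cases hs : aeval b s = 0
  · rw [hs, div_zero, map_zero, zero_div]; exact Ge.zero
  rw [logder_div (D j) hr hs]
  refine (log_aeval b hb D hD P hP j r ?_).sub (log_aeval b hb D hD P hP j s ?_)
  · rintro rfl; simp at hr
  · rintro rfl; simp at hs

/-- the relation of least degree modulo the maximal ideal -/
theorem der_alg [CharZero k] (F0 : IntermediateField k K) (P : Place k K) (Δ : Derivation k K K)
    (h1 : ∀ f, Ge P 0 (Δ f / f)) (h2 : ∀ x ∈ F0, Ge P 1 (Δ x / x)) (f : K) (hf : P.ord f = 0)
    (halg : IsAlgebraic F0 f) : Ge P 1 (Δ f) := by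
  classical
  have hmul : ∀ (x : K) (n m : ℤ), Ge P n x → Ge P m (Δ x / x) → Ge P (n + m) (Δ x) := by
    intro x n m hx hm
    by_cases h : x = 0
    · rw [h, map_zero]; exact Ge.zero
    · have := hx.mul hm
      rwa [mul_div_cancel₀ _ h] at this
  have hf0 : Ge P 0 f := Or.inr hf.ge
  -- the relations
  let Rel : ℕ → Prop := fun d => ∃ Q : Polynomial K, Q.natDegree ≤ d ∧ (∀ i, Q.coeff i ∈ F0) ∧
    (∀ i, Ge P 0 (Q.coeff i)) ∧ Q.coeff d ≠ 0 ∧ P.ord (Q.coeff d) = 0 ∧ Ge P 1 (Q.eval f)
  have hex : ∃ d, Rel d := by
    obtain ⟨p, hp0, hp⟩ := halg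
    have hS : p.support.Nonempty := Polynomial.support_nonempty.mpr hp0
    obtain ⟨i', hi', hmin⟩ := Finset.exists_min_image p.support
      (fun i => P.ord ((p.coeff i : F0) : K)) hS
    set e := P.ord ((p.coeff i' : F0) : K) with he
    obtain ⟨i1, hi1, hmax⟩ := Finset.exists_max_image
      (p.support.filter fun i => P.ord ((p.coeff i : F0) : K) = e) (fun i => i)
      ⟨i', Finset.mem_filter.mpr ⟨hi', rfl⟩⟩
    rw [Finset.mem_filter] at hi1
    obtain ⟨hi1s, hi1e⟩ := hi1
    set a : ℕ → K := fun i => ((p.coeff i : F0) : K) with ha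
    have ha1 : a i1 ≠ 0 := by
      rw [Polynomial.mem_support_iff] at hi1s
      simpa [ha] using hi1s
    have hage : ∀ i, Ge P 0 (a i / a i1) := by
      intro i
      by_cases hi : a i = 0
      · rw [hi, zero_div]; exact Ge.zero
      · right
        have his : i ∈ p.support := by
          rw [Polynomial.mem_support_iff]
          intro h
          apply hi
          simp [ha, h]
        have := hmin i his
        rw [P.ord_div hi ha1]
        change e ≤ P.ord (a i) at this
        change P.ord (a i1) = e at hi1e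
        omega
    have hage1 : ∀ i, i1 < i → Ge P 1 (a i / a i1) := by
      intro i hii
      by_cases hi : a i = 0
      · rw [hi, zero_div]; exact Ge.zero
      · right
        have his : i ∈ p.support := by
          rw [Polynomial.mem_support_iff]
          intro h
          apply hi
          simp [ha, h]
        have h3 := hmin i his
        have h4 : P.ord (a i) ≠ e := by
          intro h
          have := hmax i (Finset.mem_filter.mpr ⟨his, h⟩)
          omega
        rw [P.ord_div hi ha1]
        change e ≤ P.ord (a i) at h3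
        change P.ord (a i1) = e at hi1e
        omega
    refine ⟨i1, ∑ i ∈ Finset.range (i1 + 1), Polynomial.monomial i (a i / a i1), ?_⟩
    have hcf : ∀ j, (∑ i ∈ Finset.range (i1 + 1), Polynomial.monomial i (a i / a i1)).coeff j =
        if j ≤ i1 then a j / a i1 else 0 := by
      intro j
      simp only [Polynomial.finsetSum_coeff, Polynomial.coeff_monomial]
      rw [Finset.sum_ite_eq']
      simp
    refine ⟨?_, ?_, ?_, ?_, ?_, ?_⟩
    · rw [Polynomial.natDegree_le_iff_coeff_eq_zero]
      intro N hN
      rw [hcf, if_neg (by omega)]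
    · intro i
      rw [hcf]
      split
      · exact F0.div_mem (p.coeff i).2 (p.coeff i1).2
      · exact F0.zero_mem
    · intro i
      rw [hcf]
      split
      · exact hage i
      · exact Ge.zero
    · rw [hcf, if_pos le_rfl, div_self ha1]; exact one_ne_zero
    · rw [hcf, if_pos le_rfl, div_self ha1]; exact P.ord_one
    · have h5 : Polynomial.aeval f p = ∑ i ∈ Finset.range (p.natDegree + 1), a i * f ^ i := by
        rw [Polynomial.aeval_eq_sum_range]
        exact Finset.sum_congr rfl fun i _ => by rw [Algebra.smul_def]; rfl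
      rw [hp] at h5
      have h6 : i1 ≤ p.natDegree := Polynomial.le_natDegree_of_mem_supp _ hi1s
      have h7 : (∑ i ∈ Finset.range (i1 + 1), Polynomial.monomial i (a i / a i1)).eval f =
          ∑ i ∈ Finset.range (i1 + 1), (a i / a i1) * f ^ i := by
        rw [Polynomial.eval_finsetSum]
        exact Finset.sum_congr rfl fun i _ => Polynomial.eval_monomial
      have h8 : ∑ i ∈ Finset.range (i1 + 1), (a i / a i1) * f ^ i =
          -∑ i ∈ Finset.Ico (i1 + 1) (p.natDegree + 1), (a i / a i1) * f ^ i := by
        have h9 := Finset.sum_range_add_sum_Ico (fun i => (a i / a i1) * f ^ i)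
          (show i1 + 1 ≤ p.natDegree + 1 by omega)
        have h10 : ∑ i ∈ Finset.range (p.natDegree + 1), (a i / a i1) * f ^ i = 0 := by
          have : ∀ i ∈ Finset.range (p.natDegree + 1), (a i / a i1) * f ^ i =
              (a i * f ^ i) / a i1 := fun i _ => by ring
          rw [Finset.sum_congr rfl this, ← Finset.sum_div, ← h5, zero_div]
        rw [h10] at h9
        exact eq_neg_of_add_eq_zero_left h9
      rw [h7, h8]
      refine Ge.neg (Ge.sum _ _ fun i hi => ?_)
      have h11 := (hage1 i (by have := (Finset.mem_Ico.mp hi).1; omega)).mul (hf0.pow i)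
      simpa using h11
  -- the least degree
  obtain ⟨Q, hQd, hQF, hQ0, hQn, hQu, hQf⟩ := Nat.find_spec hex
  set d := Nat.find hex with hd
  have hd1 : 1 ≤ d := by
    by_contra hcon
    have hd0 : d = 0 := by omega
    rw [hd0] at hQd hQn hQu
    have : Q = Polynomial.C (Q.coeff 0) := Polynomial.eq_C_of_natDegree_le_zero hQd
    rw [this, Polynomial.eval_C] at hQf
    rcases hQf with h | h
    · exact hQn h
    · omega
  have hdK : ((d : ℕ) : K) ≠ 0 := by
    have hk : CharZero K := charZero_of_injective_algebraMap (algebraMap k K).injective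
    exact_mod_cast (by omega : d ≠ 0)
  have hdo : P.ord ((d : ℕ) : K) = 0 := by
    have h := P.ord_const (c := ((d : ℕ) : k)) (by exact_mod_cast (by omega : d ≠ 0))
    rwa [map_natCast] at h
  -- the derivative is a unit
  have hunit : (Polynomial.derivative Q).eval f ≠ 0 ∧ P.ord ((Polynomial.derivative Q).eval f) = 0 := by
    have h3 : Ge P 0 ((Polynomial.derivative Q).eval f) := by
      rw [Polynomial.eval_eq_sum_range]
      refine Ge.sum _ _ fun i _ => ?_
      rw [Polynomial.coeff_derivative]
      have h4 : Ge P 0 ((i : K) + 1) := by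
        have := Ge.natCast (P := P) (i + 1)
        push_cast at this
        exact this
      have := ((hQ0 (i + 1)).mul h4).mul (hf0.pow i)
      simpa using this
    have h4 : ¬ Ge P 1 ((Polynomial.derivative Q).eval f) := by
      intro h5
      have h6 : Rel (d - 1) := by
        refine ⟨Polynomial.derivative Q, ?_, ?_, ?_, ?_, ?_, h5⟩
        · exact (Polynomial.natDegree_derivative_le Q).trans (Nat.sub_le_sub_right hQd 1)
        · intro i
          rw [Polynomial.coeff_derivative]
          have h7 : ((i : K) + 1) ∈ F0 := F0.add_mem (natCast_mem F0 i) F0.one_mem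
          exact F0.mul_mem (hQF _) h7
        · intro i
          rw [Polynomial.coeff_derivative]
          have h4 : Ge P 0 ((i : K) + 1) := by
            have := Ge.natCast (P := P) (i + 1)
            push_cast at this
            exact this
          have := (hQ0 (i + 1)).mul h4
          simpa using this
        · rw [Polynomial.coeff_derivative]
          have e1 : d - 1 + 1 = d := by omega
          have e2 : ((d - 1 : ℕ) : K) + 1 = d := by
            have : ((d - 1 + 1 : ℕ) : K) = d := by rw [e1]
            push_cast at this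
            exact this
          rw [e1, e2]
          exact mul_ne_zero hQn hdK
        · rw [Polynomial.coeff_derivative]
          have e1 : d - 1 + 1 = d := by omega
          have e2 : ((d - 1 : ℕ) : K) + 1 = d := by
            have : ((d - 1 + 1 : ℕ) : K) = d := by rw [e1]
            push_cast at this
            exact this
          rw [e1, e2, P.ord_mul hQn hdK, hQu, hdo, add_zero]
      exact Nat.find_min hex (m := d - 1) (by omega) h6
    have h5 : (Polynomial.derivative Q).eval f ≠ 0 := by
      intro h; exact h4 (Or.inl h)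
    refine ⟨h5, ?_⟩
    have h6 := h3.resolve_left h5
    have h7 : ¬ 1 ≤ P.ord ((Polynomial.derivative Q).eval f) := fun h => h4 (Or.inr h)
    omega
  -- apply the derivation
  have hder : Δ (Q.eval f) = ∑ i ∈ Q.support, Δ (Q.coeff i) * f ^ i +
      (Polynomial.derivative Q).eval f * Δ f := by
    rw [Polynomial.derivative_eval, Polynomial.sum_def, Finset.sum_mul, ← Finset.sum_add_distrib,
      Polynomial.eval_eq_sum, Polynomial.sum_def, map_sum]
    refine Finset.sum_congr rfl fun i _ => ?_
    rw [Δ.leibniz, Δ.leibniz_pow]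
    simp only [smul_eq_mul, nsmul_eq_mul]
    ring
  have h3 : Ge P 1 (Δ (Q.eval f)) := by
    have := hmul (Q.eval f) 1 0 hQf (h1 _)
    simpa using this
  have h4 : Ge P 1 (∑ i ∈ Q.support, Δ (Q.coeff i) * f ^ i) := by
    refine Ge.sum _ _ fun i _ => ?_
    have h5 := hmul (Q.coeff i) 0 1 (hQ0 i) (h2 _ (hQF i))
    have := h5.mul (hf0.pow i)
    simpa using this
  have h5 : Ge P 1 ((Polynomial.derivative Q).eval f * Δ f) := by
    have : (Polynomial.derivative Q).eval f * Δ f =
        Δ (Q.eval f) - ∑ i ∈ Q.support, Δ (Q.coeff i) * f ^ i := by rw [hder]; ring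
    rw [this]
    exact h3.sub h4
  have h6 := Ge.of_mul hunit.1 h5
  rw [hunit.2] at h6
  simpa using h6

theorem logd (hDB : S_DBD) : S_LOGD := by
  intro k K _ _ _ _ T hT w hw b D hb hdual P hP
  classical
  have hdiv := div_of_toric b hb P hP
  refine ⟨hdiv, fun j => ?_⟩
  obtain ⟨⟨i0, h0⟩, -⟩ := id hP
  set F0 := IntermediateField.adjoin k (Set.range b) with hF0
  have htb : IsTranscendenceBasis k b := by
    apply hb.isTranscendenceBasis_of_trdeg_le_of_finite
    rw [hw]; simp
  have halg : Algebra.IsAlgebraic F0 K := htb.isAlgebraic_field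
  obtain ⟨π, hπ0, hπ⟩ := P.surj
  have hb0 : ∀ j, b j ≠ 0 := fun j => hb.ne_zero j
  have hKz : CharZero K := charZero_of_injective_algebraMap (algebraMap k K).injective
  -- one step of the descent
  have step : ∀ m : ℕ, (∀ f, Ge P (-((m : ℤ) + 1)) (D j f / f)) →
      ∀ f, Ge P (-(m : ℤ)) (D j f / f) := by
    intro m hm f
    set Δ : Derivation k K K := (π ^ (m + 1)) • D j with hΔ
    have hΔa : ∀ x, Δ x = π ^ (m + 1) * D j x := fun x => rfl
    have hΔd : ∀ x, Δ x / x = π ^ (m + 1) * (D j x / x) := fun x => by rw [hΔa, mul_div_assoc]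
    have hπm : Ge P ((m : ℤ) + 1) (π ^ (m + 1)) := by
      right; rw [P.ord_pow, hπ]; push_cast; linarith
    have h1 : ∀ f, Ge P 0 (Δ f / f) := by
      intro f
      rw [hΔd]
      have := hπm.mul (hm f)
      simpa using this
    have h2 : ∀ x ∈ F0, Ge P 1 (Δ x / x) := by
      intro x hx
      rw [hΔd]
      have := hπm.mul (log_adjoin b hb D hdual P hP j x hx)
      exact this.mono (by omega)
    have h3 : ∀ u : K, u ≠ 0 → P.ord u = 0 → Ge P 1 (Δ u / u) := by
      intro u hu hu0
      have := ge_div hu (der_alg F0 P Δ h1 h2 u hu0 (halg.isAlgebraic u))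
      rw [hu0] at this
      simpa using this
    have h4 : Ge P 1 (Δ f / f) := by
      by_cases hf : f = 0
      · rw [hf, div_zero]; exact Ge.zero
      set N : ℕ := (P.ord (b i0)).natAbs with hN
      set s : ℤ := (P.ord (b i0)).sign with hs
      have hsN : s * P.ord (b i0) = N := Int.sign_mul_self _
      have hN1 : 1 ≤ N := Int.natAbs_pos.mpr h0
      set x : K := b i0 ^ (s * P.ord f) with hx
      have hx0 : x ≠ 0 := zpow_ne_zero _ (hb0 i0)
      have hxo : P.ord x = N * P.ord f := by
        rw [hx, P.ord_zpow, ← hsN]; ring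
      have hxF : x ∈ F0 := zpow_mem
        (IntermediateField.subset_adjoin k _ (Set.mem_range_self i0)) _
      set u : K := f ^ N / x with hu
      have hfN : f ^ N ≠ 0 := pow_ne_zero _ hf
      have hu0 : u ≠ 0 := div_ne_zero hfN hx0
      have huo : P.ord u = 0 := by
        rw [hu, P.ord_div hfN hx0, P.ord_pow, hxo]; ring
      have h5 : Δ (f ^ N) / f ^ N = Δ x / x + Δ u / u := by
        rw [← logder_mul Δ hx0 hu0, hu, mul_div_cancel₀ _ hx0]
      have h6 : Δ (f ^ N) / f ^ N = N * (Δ f / f) := by
        obtain ⟨N', hN'⟩ : ∃ N', N = N' + 1 := ⟨N - 1, by omega⟩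
        rw [hN', Δ.leibniz_pow]
        simp only [smul_eq_mul, nsmul_eq_mul, Nat.add_sub_cancel]
        field_simp
        ring
      have h7 : Ge P 1 ((N : K) * (Δ f / f)) := by
        rw [← h6, h5]
        exact (h2 x hxF).add (h3 u hu0 huo)
      have hNK : (N : K) ≠ 0 := by exact_mod_cast (by omega : N ≠ 0)
      have hNo : P.ord (N : K) = 0 := by
        have h := P.ord_const (c := ((N : ℕ) : k)) (by exact_mod_cast (by omega : N ≠ 0))
        rwa [map_natCast] at h
      have h8 := Ge.of_mul hNK h7
      rw [hNo] at h8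
      simpa using h8
    rw [hΔd] at h4
    have h5 := Ge.of_mul (pow_ne_zero _ hπ0) h4
    rw [P.ord_pow, hπ] at h5
    refine h5.mono ?_
    push_cast
    linarith
  have desc : ∀ m : ℕ, (∀ f, Ge P (-(m : ℤ)) (D j f / f)) → ∀ f, Ge P 0 (D j f / f) := by
    intro m
    induction m with
    | zero => intro h f; simpa using h f
    | succ m ih =>
      intro h
      apply ih
      apply step
      intro f
      have := h f
      push_cast at this
      exact this
  obtain ⟨n, hn⟩ := hDB k K T hT w hw P hdiv (D j)
  apply desc (n + 1)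
  intro f
  by_cases hf : f = 0
  · rw [hf, div_zero]; exact Ge.zero
  obtain ⟨u, hu, hu0, -, hlog⟩ := logder_eq P (D j) hπ hf
  rw [hlog]
  refine Ge.add ?_ ?_
  · have h1 := ge_div hu (hn u (Or.inr hu0.ge))
    rw [hu0] at h1
    exact h1.mono (by push_cast; omega)
  · have h1 := ge_div hπ0 (hn π (Or.inr (by omega)))
    rw [hπ] at h1
    have h2 := (Ge.intCast (P := P) (P.ord f)).mul h1
    exact h2.mono (by push_cast; omega)

end Pool.Agent.N263.GF
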